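import Pool.Agent.R592.Hd.Add

/-!
# Higher dominating numbers in a forcing extension
-/

set_option autoImplicit false
set_option linter.unusedSectionVars false

namespace Pool.Agent.R592.Hd

open Cardinal MeasureTheory Set Filter Topology
open Pool.Agent.TH773.PSet Pool.Agent.R593.Rnd Pool.Agent.R592.Ent
open scoped ENNReal

universe u v w

section Sentences

variable {P : Type u} [Preorder P]

/-- The functions from `ω` to `ω` named by `x` and `y` are eventually different. -/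
def EvDiff (x y : ℕ → ℕ → Set P) : Set P :=
  fex fun N : ℕ => fall fun n : ℕ => fall fun _ : N ≤ n => fall fun k : ℕ =>
    fnot (fand (meets (x n k)) (meets (y n k)))

variable (P) in
/-- The cardinal characteristic `𝔟(≠*)` is at most the cardinality of `Y`: there is a family of
functions from `ω` to `ω` indexed by `Y` such that no function from `ω` to `ω` is eventually
different from all of them. -/
def BLe (Y : Type v) : Set P :=
  fex fun D : Y → ℕ → ℕ → Set P => fand (fall fun y => IsFun (D y))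
    (fnot (fex fun z : ℕ → ℕ → Set P => fand (IsFun z) (fall fun y => EvDiff (D y) z)))

variable (P) in
/-- There is a family `D`, indexed by `Y`, of functions from `X` to `ω ^ ω` such that for each
function `f` from `X` to `ω ^ ω` there is `y` such that `f x` and `D y x` are eventually different
for every `x` in `X`. -/
def DLe (X : Type w) (Y : Type v) : Set P :=
  fex fun D : Y → X → ℕ → ℕ → Set P => fand (fall fun y => fall fun x => IsFun (D y x))
    (fall fun f : X → ℕ → ℕ → Set P => fimp (fall fun x => IsFun (f x))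
      (fex fun y => fall fun x => EvDiff (f x) (D y x)))

/-- The functions from `K` to `K` named by `f` and `g` satisfy `f ≤* g`: for some `μ < |K|` there
is a function `S` from `μ` to `K` such that each `α` with `f α > g α` is a value of `S`. -/
def AlmLe {K : Type v} [LT K] (f g : K → K → Set P) : Set P :=
  fex fun μ : Cardinal.{v} => fex fun _ : μ < #K => fex fun S : μ.out → K → Set P =>
    fand (IsFun S) (fall fun α : K => fall fun β : K => fall fun γ : K => fall fun _ : γ < β =>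
      fimp (fand (meets (f α β)) (meets (g α γ))) (fex fun i => meets (S i α)))

variable (P) in
/-- There is a family, indexed by `Y`, of functions from `K` to `K` such that every function from
`K` to `K` satisfies `f ≤* g` for some member `g` of the family. -/
def DomLe (K : Type v) [LT K] (Y : Type w) : Set P :=
  fex fun D : Y → K → K → Set P => fand (fall fun y => IsFun (D y))
    (fall fun f : K → K → Set P => fimp (IsFun f) (fex fun y => AlmLe f (D y)))

variable (P) in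
/-- No `μ < |K|` can be mapped onto `K`. -/
def StaysCardinal (K : Type v) : Set P :=
  fall fun μ : Cardinal.{v} => fall fun _ : μ < #K =>
    fnot (fex fun R : μ.out → K → Set P => fand (IsFun R) (IsOnto R))

variable (P) in
/-- Let `K` be the set of the ordinals smaller than `κ`. The ordinal `κ` is a cardinal, the
continuum is at most `κ`, `𝔟(≠*)` is not smaller than `κ`, the number `𝔡(≠*_{∅})` (for functions
defined on `K`) is at most `ν`, and the number `𝔡^κ_κ` is not at most `ν`. -/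
def Model (κ ν : Cardinal.{v}) : Set P :=
  fand (StaysCardinal P κ.ord.ToType)
    (fand (ContinuumLe P κ.ord.ToType)
      (fand (fall fun μ : Cardinal.{v} => fall fun _ : μ < κ => fnot (BLe P μ.out))
        (fand (DLe P κ.ord.ToType ν.out) (fnot (DomLe P κ.ord.ToType ν.out)))))

end Sentences

section Product

variable {J W K : Type}

theorem cc {Ω : Type} [MeasurableSpace Ω] {μ : Measure Ω} [IsFiniteMeasure μ] [Nonempty J]
    (hW : #W ≤ 𝔠) {X : Type} (f : X → Add J W × Cond μ)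
    (h : ∀ x x', x ≠ x' → ¬ ∃ s, s ≤ f x ∧ s ≤ f x') : #X ≤ 𝔠 := by
  obtain ⟨d, hd, hd'⟩ := exists_small (D := {a' : Add J W | ∀ b : Cond μ, ∃ b' ≤ b,
      (a', b') ∈ {p : Add J W × Cond μ | (∃ x, p ≤ f x) ∨ ∀ x, ¬ ∃ s, s ≤ p ∧ s ≤ f x}}) (by
    intro a
    refine core ?_ ?_ a
    · rintro p (⟨x, hx⟩ | hp) q hq
      · exact Or.inl ⟨x, hq.trans hx⟩
      · exact Or.inr fun x ⟨s, hs, hs'⟩ => hp x ⟨s, hs.trans hq, hs'⟩
    · intro p
      by_cases hp : ∃ x, ∃ s, s ≤ p ∧ s ≤ f x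
      · obtain ⟨x, s, hs, hs'⟩ := hp
        exact ⟨s, hs, Or.inl ⟨x, hs'⟩⟩
      · push Not at hp
        exact ⟨p, le_rfl, Or.inr fun x ⟨s, hs, hs'⟩ => hp x s hs hs'⟩)
  have h1 : ∀ x, ∃ i, ∃ b', (d i, b') ≤ f x := by
    intro x
    obtain ⟨i, hi⟩ := hd' (f x).1
    obtain ⟨a', ha1, ha2, -⟩ := exists_glue2 hi
    obtain ⟨b', hb', hb | hb⟩ := hd i (f x).2
    · obtain ⟨x', hx'⟩ := hb
      by_cases hxx : x = x'
      · rw [hxx]
        exact ⟨i, b', hx'⟩
      · have h2 : (a', b') ≤ (d i, b') := ⟨ha2, le_rfl⟩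
        exact absurd ⟨(a', b'), ⟨ha1, hb'⟩, h2.trans hx'⟩ (h x x' hxx)
    · exact absurd ⟨(a', b'), ⟨ha2, le_rfl⟩, ⟨ha1, hb'⟩⟩ (hb x)
  choose i b' hb' using h1
  by_contra hlt
  rw [not_le] at hlt
  obtain ⟨x, x', hne, hi, s, hs, hs'⟩ := ccc_same (X := X) (Z := Ind W) (by
    refine lt_of_le_of_lt (mul_le_mul' (mk_ind hW) le_rfl) ?_
    simpa using hlt) b' i
  have h2 : (d (i x), s) ≤ (d (i x), b' x) := ⟨le_rfl, hs⟩
  have h3 : (d (i x), s) ≤ (d (i x'), b' x') := ⟨by rw [hi], hs'⟩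
  exact h x x' hne ⟨(d (i x), s), h2.trans (hb' x), h3.trans (hb' x')⟩

/-- the conditions whose second coordinate is almost included in `E` -/
def lft (J W : Type) {K : Type} (E : Set (K × ℕ → Bool)) : Set (Add J W × Random K) :=
  {p | p.2 ∈ AE (coinProduct K) E}

theorem meets_lft {E : Set (K × ℕ → Bool)} (hE : MeasurableSet E) :
    meets (lft J W E) = lft J W E := by
  ext p
  constructor
  · intro h
    show p.2 ∈ AE (coinProduct K) E
    rw [mem_AE]
    by_contra hne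
    have hne' : coinProduct K (p.2.1 ∩ Eᶜ) ≠ 0 := hne
    obtain ⟨r, hr, s, hs, hrs⟩ := h (p.1, restr p.2 Eᶜ hE.compl hne')
      ⟨le_rfl, restr_le p.2 Eᶜ hE.compl hne'⟩
    exact not_AE_compl (down_AE _ _ hs _ hrs.2)
      (down_AE _ _ (restr_mem p.2 Eᶜ hE.compl hne') _ hr.2)
  · intro h q hq
    exact ⟨q, le_rfl, p, h, hq⟩

/-- the events of the values of the random function from `ω` to `ω` -/
def rn (i : K) (n k : ℕ) : Set (K × ℕ → Bool) :=
  {x | Encodable.encode (open Classical in (bk n).filter fun j => x ∈ rr i j) = k}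

theorem rn_eq (i : K) (n k : ℕ) : rn i n k = ⋃ S : Finset ℕ, ⋃ _ : Encodable.encode S = k,
    {x : K × ℕ → Bool | (open Classical in (bk n).filter fun j => x ∈ rr i j) = S} := by
  ext x
  simp [rn]

theorem dep_rn (i : K) (n k : ℕ) : Dep {t : K × ℕ | t.1 = i} (rn i n k) := by
  rw [rn_eq]
  exact Dep.iUnion fun S => Dep.iUnion fun _ => dep_filter (dep_rr i) (bk n) S

theorem measurable_rn (i : K) (n k : ℕ) : MeasurableSet (rn i n k) := (dep_rn i n k).meas

theorem measure_rn (i : K) (n k : ℕ) : coinProduct K (rn i n k) ≤ (2 : ENNReal)⁻¹ ^ n := by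
  classical
  by_cases h : ∃ S : Finset ℕ, Encodable.encode S = k
  · obtain ⟨S, hS⟩ := h
    have h1 : rn i n k ⊆ {x | ∀ j ∈ bk n, x (i, j) = decide (j ∈ S)} := by
      intro x hx j hj
      have h2 : ((bk n).filter fun j => x ∈ rr i j) = S :=
        Encodable.encode_injective (hx.trans hS.symm)
      have h4 : j ∈ S ↔ x (i, j) = true := by
        rw [← h2, Finset.mem_filter]
        exact ⟨fun h => h.2, fun h => ⟨hj, h⟩⟩
      by_cases h3 : x (i, j) = true
      · rw [h3]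
        exact (decide_eq_true (h4.2 h3)).symm
      · have h5 : j ∉ S := fun h => h3 (h4.1 h)
        rw [Bool.not_eq_true] at h3
        rw [h3]
        exact (decide_eq_false h5).symm
    refine (measure_mono h1).trans ?_
    rw [measure_pattern]
    exact pow_le_pow_right_of_le_one' (ENNReal.inv_le_one.2 (by norm_num)) (card_bk n)
  · push Not at h
    have h1 : rn i n k = ∅ := by
      refine eq_empty_of_forall_notMem fun x hx => h _ hx
    rw [h1, measure_empty]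
    exact bot_le

theorem disjoint_rn {i : K} {n k k' : ℕ} {x : K × ℕ → Bool} (h : x ∈ rn i n k)
    (h' : x ∈ rn i n k') : k = k' := h.symm.trans h'

/-- the name of the `i`-th random function -/
def RF (J W : Type) {K : Type} (i : K) (n k : ℕ) : Set (Add J W × Random K) := lft J W (rn i n k)

theorem isFun_RF (i : K) (p : Add J W × Random K) : p ∈ IsFun (RF J W i) := by
  refine ⟨fun n => mem_fex.2 fun q _ => ?_, fun n k k' hne q _ hq => ?_⟩
  · have h1 : q.2 ∈ AE (coinProduct K) (⋃ k, rn i n k) := by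
      have : (⋃ k, rn i n k) = Set.univ := eq_univ_of_forall fun x => mem_iUnion.2 ⟨_, rfl⟩
      rw [this, mem_AE]
      simp
    obtain ⟨k, hk⟩ := exists_pos h1
    refine ⟨(q.1, restr q.2 _ (measurable_rn i n k) hk),
      ⟨le_rfl, restr_le q.2 _ (measurable_rn i n k) hk⟩, k, ?_⟩
    show _ ∈ meets (lft J W (rn i n k))
    rw [meets_lft (measurable_rn i n k)]
    exact restr_mem q.2 _ (measurable_rn i n k) hk
  · obtain ⟨h1, h2⟩ := hq
    change q ∈ meets (lft J W (rn i n k)) at h1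
    change q ∈ meets (lft J W (rn i n k')) at h2
    rw [meets_lft (measurable_rn i n _)] at h1 h2
    have h1' : q.2 ∈ AE (coinProduct K) (rn i n k) := h1
    have h2' : q.2 ∈ AE (coinProduct K) (rn i n k') := h2
    rw [mem_AE_iff] at h1' h2'
    apply q.2.2.2
    refine measure_eq_zero_iff_ae_notMem.2 ?_
    filter_upwards [h1', h2'] with x h3 h4 h5
    exact hne (disjoint_rn (h3 h5) (h4 h5))

/-- a sequence of statements has a small support -/
theorem exists_support [Nonempty J] (hW : #W ≤ 𝔠) {φ : ℕ → Set (Add J W × Random K)}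
    (hφ : ∀ n, Reg (φ n)) :
    ∃ A : Set K, #A ≤ 𝔠 ∧ ∀ a : Add J W, ∃ a' ≤ a, ∃ T : Set (K × ℕ), (∀ t ∈ T, t.1 ∈ A) ∧
      ∃ E : ℕ → Set (K × ℕ → Bool), ∀ n, Dep T (E n) ∧
        ∀ a'' ≤ a', ∀ b : Random K, ((a'', b) ∈ φ n ↔ b ∈ AE (coinProduct K) (E n)) := by
  obtain ⟨d, hd, hd'⟩ := exists_small (D := {a' : Add J W | ∃ E : ℕ → Set (K × ℕ → Bool), ∀ n,
      MeasurableSet (E n) ∧ ∀ a'' ≤ a', ∀ b : Random K,
        ((a'', b) ∈ φ n ↔ b ∈ AE (coinProduct K) (E n))}) (decide_seq hφ)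
  choose E hE using hd
  choose T hT hT' using fun i n => exists_countable (hE i n).1
  let TT : Ind W → Set (K × ℕ) := fun i => ⋃ n, T i n
  have hTT : ∀ i, (TT i).Countable := fun i => countable_iUnion fun n => hT i n
  refine ⟨⋃ i, Prod.fst '' TT i, ?_, fun a => ?_⟩
  · refine (mk_iUnion_le_sum_mk).trans ((sum_le_sum _ (fun _ => ℵ₀) fun i => ?_).trans ?_)
    · exact ((hTT i).image _).le_aleph0
    · rw [sum_const']
      calc _ ≤ 𝔠 * ℵ₀ := mul_le_mul' (mk_ind hW) le_rfl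
        _ = 𝔠 := by simp
  · obtain ⟨i, hi⟩ := hd' a
    obtain ⟨a', ha1, ha2, -⟩ := exists_glue2 hi
    refine ⟨a', ha1, TT i, fun t ht => mem_iUnion.2 ⟨i, t, ht, rfl⟩, E i, fun n => ⟨?_, ?_⟩⟩
    · exact (hT' i n).mono (subset_iUnion (T i) n)
    · exact fun a'' ha'' b => (hE i n).2 a'' (ha''.trans ha2) b

theorem evDiff [Nonempty J] (hW : #W ≤ 𝔠) (X : ℕ → ℕ → Set (Add J W × Random K)) :
    ∃ A : Set K, #A ≤ 𝔠 ∧ ∀ γ, γ ∉ A → ∀ p ∈ IsFun X, p ∈ EvDiff X (RF J W γ) := by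
  obtain ⟨A, hA, h⟩ := exists_support hW (φ := fun n => meets (X n.unpair.1 n.unpair.2))
    fun n => reg_meets _
  refine ⟨A, hA, fun γ hγ p hp => mem_fex.2 fun q hq => ?_⟩
  obtain ⟨a', ha', T, hT, E, hE⟩ := h q.1
  let F : ℕ → ℕ → Set (K × ℕ → Bool) := fun n k => E (Nat.pair n k)
  have hFd : ∀ n k, Dep T (F n k) := fun n k => (hE _).1
  have hF : ∀ n k, ∀ a'' ≤ a', ∀ b : Random K,
      ((a'', b) ∈ meets (X n k) ↔ b ∈ AE (coinProduct K) (F n k)) := by
    intro n k a'' ha'' b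
    have := (hE (Nat.pair n k)).2 a'' ha'' b
    simpa using this
  have hq' : (a', q.2) ≤ q := ⟨ha', le_rfl⟩
  have hfun : (a', q.2) ∈ IsFun X := (reg_isFun X).1 p hp _ (hq'.trans hq)
  -- the values are unique
  have huniq : ∀ n k k', k ≠ k' → ∀ᵐ x ∂(coinProduct K), x ∈ q.2.1 →
      ¬ (x ∈ F n k ∧ x ∈ F n k') := by
    intro n k k' hne
    have hm : MeasurableSet (F n k ∩ F n k') := (hFd n k).meas.inter (hFd n k').meas
    by_contra hcon
    have hpos : coinProduct K (q.2.1 ∩ (F n k ∩ F n k')) ≠ 0 := by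
      intro h0
      apply hcon
      filter_upwards [measure_eq_zero_iff_ae_notMem.1 h0] with x hx h1 h2
      exact hx ⟨h1, h2⟩
    have h2 : restr q.2 _ hm hpos ∈ AE (coinProduct K) (F n k ∩ F n k') := restr_mem _ _ _ _
    rw [← fand_AE] at h2
    exact hfun.2 n k k' hne (a', restr q.2 _ hm hpos) ⟨le_rfl, restr_le q.2 _ hm hpos⟩
      ⟨(hF n k a' le_rfl _).2 h2.1, (hF n k' a' le_rfl _).2 h2.2⟩
  let F' : ℕ → ℕ → Set (K × ℕ → Bool) := fun n k => F n k ∩ ⋂ k' : ℕ, ⋂ _ : k' ≠ k, (F n k')ᶜ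
  have hF'd : ∀ n k, Dep T (F' n k) := fun n k =>
    (hFd n k).inter (Dep.iInter fun k' => Dep.iInter fun _ => (hFd n k').compl)
  let G : ℕ → Set (K × ℕ → Bool) := fun n => ⋃ k, F' n k ∩ rn γ n k
  have hGm : ∀ n, MeasurableSet (G n) := fun n =>
    MeasurableSet.iUnion fun k => (hF'd n k).meas.inter (measurable_rn γ n k)
  have hdisjT : Disjoint T {t : K × ℕ | t.1 = γ} :=
    Set.disjoint_left.2 fun t h1 h2 => hγ (h2 ▸ hT t h1)
  have hG : ∀ n, coinProduct K (G n) ≤ (2 : ENNReal)⁻¹ ^ n := by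
    intro n
    calc coinProduct K (G n) ≤ ∑' k, coinProduct K (F' n k ∩ rn γ n k) := measure_iUnion_le _
      _ ≤ ∑' k, coinProduct K (F' n k) * (2 : ENNReal)⁻¹ ^ n := by
        refine ENNReal.tsum_le_tsum fun k => ?_
        rw [dep_indep hdisjT (hF'd n k) (dep_rn γ n k)]
        exact mul_le_mul_right (measure_rn γ n k) _
      _ = (∑' k, coinProduct K (F' n k)) * (2 : ENNReal)⁻¹ ^ n := ENNReal.tsum_mul_right
      _ = coinProduct K (⋃ k, F' n k) * (2 : ENNReal)⁻¹ ^ n := by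
        rw [measure_iUnion (fun k k' hne => ?_) fun k => (hF'd n k).meas]
        refine Set.disjoint_left.2 fun x hx hx' => ?_
        exact mem_iInter₂.1 hx.2 k' (Ne.symm hne) hx'.1
      _ ≤ 1 * (2 : ENNReal)⁻¹ ^ n := mul_le_mul' prob_le_one le_rfl
      _ = _ := one_mul _
  let H : ℕ → Set (K × ℕ → Bool) := fun N => ⋂ n : ℕ, ⋂ _ : N ≤ n, (G n)ᶜ
  have hHm : ∀ N, MeasurableSet (H N) := fun N =>
    MeasurableSet.iInter fun n => MeasurableSet.iInter fun _ => (hGm n).compl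
  have h3 : ∑' n, coinProduct K (G n) ≠ ⊤ :=
    ne_top_of_le_ne_top tsum_two (ENNReal.tsum_le_tsum hG)
  have h4 : q.2 ∈ AE (coinProduct K) (⋃ N, H N) := by
    rw [mem_AE_iff]
    filter_upwards [ae_eventually_notMem h3] with x hx _
    obtain ⟨N, hN⟩ := eventually_atTop.1 hx
    exact mem_iUnion.2 ⟨N, mem_iInter₂.2 fun n hn => hN n hn⟩
  obtain ⟨N, hN⟩ := exists_pos h4
  refine ⟨(a', restr q.2 _ (hHm N) hN), ⟨ha', restr_le q.2 _ (hHm N) hN⟩, N,
    fun n hn k s hs hsm => ?_⟩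
  obtain ⟨h5, h6⟩ := hsm
  have h5' : s.2 ∈ AE (coinProduct K) (F n k) := (hF n k s.1 hs.1 s.2).1 h5
  change s ∈ meets (lft J W (rn γ n k)) at h6
  rw [meets_lft (measurable_rn γ n k)] at h6
  have h6' : s.2 ∈ AE (coinProduct K) (rn γ n k) := h6
  have h7 : s.2 ∈ AE (coinProduct K) (H N) :=
    down_AE _ _ (restr_mem q.2 _ (hHm N) hN) _ hs.2
  have h8 : s.2 ∈ AE (coinProduct K) q.2.1 :=
    le_iff_AE.1 (hs.2.trans (restr_le q.2 _ (hHm N) hN))
  rw [mem_AE_iff] at h5' h6' h7 h8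
  apply s.2.2.2
  refine measure_eq_zero_iff_ae_notMem.2 ?_
  have h9 : ∀ᵐ x ∂(coinProduct K), ∀ k', k ≠ k' → x ∈ q.2.1 → ¬ (x ∈ F n k ∧ x ∈ F n k') := by
    rw [ae_all_iff]
    intro k'
    by_cases hne : k = k'
    · exact ae_of_all _ fun x h => absurd hne h
    · filter_upwards [huniq n k k' hne] with x hx _
      exact hx
  filter_upwards [h5', h6', h7, h8, h9] with x g5 g6 g7 g8 g9 hx
  refine mem_iInter₂.1 (g7 hx) n hn (mem_iUnion.2 ⟨k, ⟨g5 hx, ?_⟩, g6 hx⟩)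
  exact mem_iInter₂.2 fun k' hk' h10 => g9 k' (Ne.symm hk') (g8 hx) ⟨g5 hx, h10⟩

theorem continuumLe (hK : ℵ₀ ≤ #K) (hpow : #K ^ ℵ₀ = #K) {Y : Type} (hY : #Y = #K)
    (p : Add J W × Random K) : p ∈ ContinuumLe (Add J W × Random K) Y := by
  classical
  have h1 : #(ℕ → {A : Set (K × ℕ → Bool) // MeasurableSet A}) ≤ #Y := by
    rw [hY, mk_arrow, lift_id, lift_id, mk_nat]
    exact (power_le_power_right (mk_measurable hK hpow)).trans hpow.le
  obtain ⟨e⟩ := h1
  have hne : Nonempty (ℕ → {A : Set (K × ℕ → Bool) // MeasurableSet A}) :=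
    ⟨fun _ => ⟨∅, MeasurableSet.empty⟩⟩
  let g : Y → ℕ → {A : Set (K × ℕ → Bool) // MeasurableSet A} := Function.invFun e
  have hg : Function.Surjective g := Function.invFun_surjective e.injective
  refine mem_fex_of (fun y n => lft J W (g y n).1) fun q _ X => mem_fex.2 fun r _ => ?_
  obtain ⟨a', ha', E, hE⟩ := decide_seq (φ := fun n => meets (X n)) (fun n => reg_meets _) r.1
  obtain ⟨y, hy⟩ := hg fun n => ⟨E n, (hE n).1⟩
  refine ⟨(a', r.2), ⟨ha', le_rfl⟩, y, same_of fun s hs n => ?_⟩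
  rw [meets_lft (g y n).2, hy]
  exact (hE n).2 s.1 hs.1 s.2

/-! ### The numbers for `≠*` -/

theorem not_bLe [Nonempty J] (hW : #W ≤ 𝔠) (hK : 𝔠 < #K) {M : Type} (hM : #M < #K)
    (p : Add J W × Random K) : p ∈ fnot (BLe (Add J W × Random K) M) := by
  intro q _ hq
  obtain ⟨r, _, D, hD1, hD2⟩ := mem_fex.1 hq q le_rfl
  choose A hA hA' using fun m => evDiff hW (D m)
  obtain ⟨γ, hγ⟩ : ∃ γ, γ ∉ ⋃ m, A m := by
    by_contra hcon
    push Not at hcon
    have h1 : #K ≤ #(⋃ m, A m) := by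
      rw [eq_univ_of_forall hcon, mk_univ]
    have h2 : #(⋃ m, A m) ≤ #M * 𝔠 := by
      refine (mk_iUnion_le_sum_mk).trans ((sum_le_sum _ (fun _ => 𝔠) fun m => hA m).trans ?_)
      rw [sum_const']
    exact absurd (h1.trans h2) (not_le.2 (mul_lt_of_lt (aleph0_le_continuum.trans hK.le) hM hK))
  refine hD2 r le_rfl (mem_fex_of (RF J W γ) fun s hs => ⟨isFun_RF γ s, fun m => ?_⟩)
  exact hA' m γ (fun h => hγ (mem_iUnion.2 ⟨m, h⟩)) s ((reg_isFun _).1 r (hD1 m) s hs)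

theorem dLe [Nonempty J] (hW : #W ≤ 𝔠) (hK : 𝔠 < #K) {Y : Type} (hY : #Y = #(K → K))
    (p : Add J W × Random K) : p ∈ DLe (Add J W × Random K) K Y := by
  obtain ⟨e⟩ := Cardinal.eq.1 hY
  refine mem_fex_of (fun y x => RF J W (e y x)) fun q _ =>
    ⟨fun y x => isFun_RF _ q, fun f => mem_fimp.2 fun r _ hr => ⟨r, le_rfl, ?_⟩⟩
  choose A hA hA' using fun x => evDiff hW (f x)
  have h1 : ∀ x, ∃ γ, γ ∉ A x := by
    intro x
    by_contra hcon
    push Not at hcon
    have h1 : #K ≤ #(A x) := by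
      rw [eq_univ_of_forall hcon, mk_univ]
    exact absurd (h1.trans (hA x)) (not_le.2 hK)
  choose γ hγ using h1
  refine mem_fex_of (e.symm γ) fun s hs x => ?_
  show s ∈ EvDiff (f x) (RF J W (e (e.symm γ) x))
  rw [Equiv.apply_symm_apply]
  exact hA' x (γ x) (hγ x) s ((reg_isFun _).1 r (hr x) s hs)

/-! ### Functions from `K` to `K` -/

theorem values [Nonempty J] (hW : #W ≤ 𝔠) {M : Type} {S : M → K → Set (Add J W × Random K)}
    {r : Add J W × Random K} (hr : r ∈ IsFun S) :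
    ∃ C : Set K, #C ≤ #M * 𝔠 ∧ ∀ i β, ∀ q ≤ r, q ∈ meets (S i β) → β ∈ C := by
  refine ⟨⋃ i, {β | ∃ q ≤ r, q ∈ meets (S i β)}, ?_, fun i β q hq h => mem_iUnion.2 ⟨i, q, hq, h⟩⟩
  refine (mk_iUnion_le_sum_mk).trans ((sum_le_sum _ (fun _ => 𝔠) fun i => ?_).trans ?_)
  · choose f hf hf' using fun x : {β | ∃ q ≤ r, q ∈ meets (S i β)} => x.2
    refine cc hW f fun x x' hne => ?_
    rintro ⟨s, hs, hs'⟩
    apply hne
    apply Subtype.ext
    exact isFun_unique ((reg_isFun S).1 r hr s (hs.trans (hf x)))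
      ((reg_meets _).1 _ (hf' x) s hs) ((reg_meets _).1 _ (hf' x') s hs')
  · rw [sum_const']

theorem staysCardinal [Nonempty J] (hW : #W ≤ 𝔠) (hK : 𝔠 < #K) (p : Add J W × Random K) :
    p ∈ StaysCardinal (Add J W × Random K) K := by
  intro μ hμ q _ hq
  obtain ⟨r, _, R, hR1, hR2⟩ := mem_fex.1 hq q le_rfl
  obtain ⟨C, hC, hC'⟩ := values hW hR1
  rw [mk_out] at hC
  have h1 : ∀ β, β ∈ C := by
    intro β
    obtain ⟨s, hs, i, hi⟩ := mem_fex.1 (hR2 β) r le_rfl
    exact hC' i β s hs hi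
  have h2 : #K ≤ #C := by
    rw [eq_univ_of_forall h1, mk_univ]
  exact absurd (h2.trans hC)
    (not_le.2 (mul_lt_of_lt (aleph0_le_continuum.trans hK.le) hμ hK))

theorem not_domLe [Nonempty J] [LT K] (hW : #W ≤ 𝔠) (hW' : ℵ₀ < #W) (hK : 𝔠 < #K)
    (blk : K → W) (hblk : ∀ w, #{α // blk α = w} = #K) (c : W → K) (hc : ∀ β, ∃ w, β < c w)
    {Y : Type} (hKJ : #K < #J) (hYJ : #Y < #J) (p : Add J W × Random K) :
    p ∈ fnot (DomLe (Add J W × Random K) K Y) := by
  classical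
  intro q _ hq
  obtain ⟨r, _, D, hD1, hD2⟩ := mem_fex.1 hq q le_rfl
  have hK0 : ℵ₀ ≤ #K := aleph0_le_continuum.trans hK.le
  have hJ0 : ℵ₀ < #J := hK0.trans_lt hKJ
  -- small families of conditions which decide the values
  have h1 : ∀ (y : Y) (α : K), ∃ d : Ind W → Add J W, (∀ i, ∀ b : Random K, ∃ b' ≤ b,
      (∃ β, (d i, b') ∈ meets (D y α β)) ∨ ∀ s, s ≤ (d i, b') → ¬ s ≤ r) ∧
      ∀ a, ∃ i, Agree a (d i) := by
    intro y α
    refine exists_small (D := {a' : Add J W | ∀ b : Random K, ∃ b' ≤ b,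
      (a', b') ∈ {p : Add J W × Random K | (∃ β, p ∈ meets (D y α β)) ∨ ∀ s, s ≤ p → ¬ s ≤ r}})
      fun a => core ?_ ?_ a
    · rintro p (⟨β, hβ⟩ | hp) q hq
      · exact Or.inl ⟨β, (reg_meets _).1 _ hβ _ hq⟩
      · exact Or.inr fun s hs => hp s (hs.trans hq)
    · intro p
      by_cases hp : ∃ s, s ≤ p ∧ s ≤ r
      · obtain ⟨s, hs, hs'⟩ := hp
        obtain ⟨t, ht, β, hβ⟩ := isFun_total ((reg_isFun _).1 r (hD1 y) s hs') α
        exact ⟨t, ht.trans hs, Or.inl ⟨β, hβ⟩⟩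
      · push Not at hp
        exact ⟨p, le_rfl, Or.inr hp⟩
  choose d hd hd' using h1
  -- the support
  let SS : Set J := ⋃ u : Y × K × Ind W, Prod.fst '' (d u.1 u.2.1 u.2.2).dom
  obtain ⟨j, hj⟩ : ∃ j, j ∉ SS := by
    by_contra hcon
    push Not at hcon
    have h1 : #J ≤ #SS := by
      rw [eq_univ_of_forall hcon, mk_univ]
    have h2 : #SS ≤ #Y * (#K * #(Ind W)) * ℵ₀ := by
      refine (mk_iUnion_le_sum_mk).trans ((sum_le_sum _ (fun _ => ℵ₀) fun u => ?_).trans ?_)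
      · exact ((d u.1 u.2.1 u.2.2).ctb.image _).le_aleph0
      · rw [sum_const', mk_prod, mk_prod]
        simp only [lift_id]
        exact le_rfl
    refine absurd (h1.trans h2) (not_le.2 ?_)
    refine mul_lt_of_lt hJ0.le (mul_lt_of_lt hJ0.le hYJ (mul_lt_of_lt hJ0.le hKJ ?_)) hJ0
    exact (mk_ind hW).trans_lt (hK.trans hKJ)
  -- the new function
  let f : K → K → Set (Add J W × Random K) := fun α β =>
    {p | (j, blk α) ∈ p.1.dom ∧ c (p.1.val (j, blk α)) = β}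
  have hfm : ∀ α β, ∀ p ∈ f α β, p ∈ meets (f α β) := by
    intro α β p hp s hs
    exact ⟨s, le_rfl, p, hp, hs⟩
  have hfm' : ∀ α β, ∀ p ∈ meets (f α β), ∃ s ≤ p, s ∈ f α β := by
    intro α β p hp
    obtain ⟨s, hs, t, ht, hst⟩ := hp p le_rfl
    refine ⟨s, hs, hst.1.1 ht.1, ?_⟩
    rw [hst.1.2 _ ht.1]
    exact ht.2
  have hdown : ∀ α β, ∀ p ∈ f α β, ∀ s ≤ p, s ∈ f α β := by
    intro α β p hp s hs
    refine ⟨hs.1.1 hp.1, ?_⟩
    rw [hs.1.2 _ hp.1]
    exact hp.2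
  have hfun : ∀ p, p ∈ IsFun f := by
    intro p
    refine ⟨fun α => mem_fex.2 fun s _ => ?_, fun α β β' hne s _ hs => ?_⟩
    · by_cases hdom : (j, blk α) ∈ s.1.dom
      · exact ⟨s, le_rfl, _, hfm _ _ _ ⟨hdom, rfl⟩⟩
      · have hWne : Nonempty W := ⟨blk α⟩
        obtain ⟨a', ha1, ha2, ha3⟩ := exists_ext s.1 _ hdom (Classical.arbitrary W)
        exact ⟨(a', s.2), ⟨ha1, le_rfl⟩, _, hfm _ _ _ ⟨ha2, rfl⟩⟩
    · obtain ⟨t, ht, ht'⟩ := hfm' _ _ _ hs.1
      obtain ⟨t', htt, ht''⟩ := hfm' _ _ _ ((reg_meets _).1 _ hs.2 _ ht)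
      exact hne ((hdown _ _ _ ht' _ htt).2.symm.trans ht''.2)
  obtain ⟨r1, hr1, h2⟩ := mem_fimp.1 (hD2 f) r le_rfl (hfun r)
  obtain ⟨r2, hr2, y, h3⟩ := mem_fex.1 h2 r1 le_rfl
  obtain ⟨r3, hr3, μ, h4⟩ := mem_fex.1 h3 r2 le_rfl
  obtain ⟨r4, hr4, hμ, h5⟩ := mem_fex.1 h4 r3 le_rfl
  obtain ⟨r5, hr5, S, hS1, hS2⟩ := mem_fex.1 h5 r4 le_rfl
  obtain ⟨C, hC, hC'⟩ := values hW hS1
  rw [mk_out] at hC
  have hC2 : #C < #K := hC.trans_lt (mul_lt_of_lt hK0 hμ hK)
  have hr5r : r5 ≤ r := hr5.trans (hr4.trans (hr3.trans (hr2.trans hr1)))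
  obtain ⟨w, hw⟩ : ∃ w, (j, w) ∉ r5.1.dom := by
    by_contra hcon
    push Not at hcon
    have h6 : (Set.univ : Set W).Countable :=
      (r5.1.ctb.preimage (f := fun w : W => (j, w)) fun w w' h => congrArg Prod.snd h).mono
        fun w _ => hcon w
    exact absurd (mk_le_aleph0_iff.2 (countable_univ_iff.1 h6)) (not_le.2 hW')
  obtain ⟨α, hα, hαC⟩ : ∃ α, blk α = w ∧ α ∉ C := by
    by_contra hcon
    push Not at hcon
    have h6 : #{α // blk α = w} ≤ #C :=
      mk_le_of_injective (f := fun α : {α // blk α = w} => (⟨α.1, hcon α.1 α.2⟩ : C))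
        fun a a' h => Subtype.ext (congrArg (fun x : C => x.1) h)
    rw [hblk] at h6
    exact absurd h6 (not_le.2 hC2)
  obtain ⟨i, hi⟩ := hd' y α r5.1
  obtain ⟨a1, ha1, ha1', ha1d⟩ := exists_glue2 hi
  obtain ⟨b', hb', hdec⟩ := hd y α i r5.2
  have hle : (a1, b') ≤ r5 := ⟨ha1, hb'⟩
  rcases hdec with ⟨β, hβ⟩ | hdec
  swap
  · exact hdec (a1, b') ⟨ha1', le_rfl⟩ (hle.trans hr5r)
  have hndom : (j, w) ∉ a1.dom := by
    intro h
    rcases ha1d _ h with h | h
    · exact hw h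
    · exact hj (mem_iUnion.2 ⟨(y, α, i), _, h, rfl⟩)
  obtain ⟨η, hη⟩ := hc β
  obtain ⟨a2, ha2, ha2d, ha2v⟩ := exists_ext a1 _ hndom η
  have hle2 : (a2, b') ≤ (a1, b') := ⟨ha2, le_rfl⟩
  have h6 : (a2, b') ∈ meets (f α (c η)) := by
    refine hfm _ _ _ ⟨?_, ?_⟩
    · rw [hα]
      exact ha2d
    · rw [hα]
      exact congrArg c ha2v
  have h7 : (a2, b') ∈ meets (D y α β) :=
    (reg_meets _).1 _ hβ _ ⟨ha2.trans ha1', le_rfl⟩
  obtain ⟨s, hs, h8⟩ := mem_fimp.1 (hS2 α (c η) β hη) (a2, b') (hle2.trans hle) ⟨h6, h7⟩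
  obtain ⟨s', hs', k, hk⟩ := mem_fex.1 h8 s le_rfl
  exact hαC (hC' k α s' (hs'.trans (hs.trans (hle2.trans hle))) hk)

end Product

end Pool.Agent.R592.Hd
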