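import Pool.Agent.R592.Ent.Force

/-!
# The product of a Cohen forcing with countable conditions and a measure algebra
-/

set_option autoImplicit false
set_option linter.unusedSectionVars false

namespace Pool.Agent.R592.Hd

open Cardinal MeasureTheory Set Filter Topology
open Pool.Agent.TH773.PSet Pool.Agent.R593.Rnd Pool.Agent.R592.Ent
open scoped ENNReal

/-- Countable partial functions from `J × W` to `W`: the conditions of the forcing which adds a
generic function from `W` to `W` for each element of `J`. -/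
structure Add (J W : Type) : Type where
  dom : Set (J × W)
  ctb : dom.Countable
  val : J × W → W

variable {J W : Type}

/-- A condition is stronger than the conditions which it extends. -/
instance : Preorder (Add J W) where
  le a b := b.dom ⊆ a.dom ∧ ∀ t ∈ b.dom, a.val t = b.val t
  le_refl a := ⟨subset_rfl, fun _ _ => rfl⟩
  le_trans a b c h h' := ⟨h'.1.trans h.1, fun t ht => (h.2 t (h'.1 ht)).trans (h'.2 t ht)⟩

theorem le_def {a b : Add J W} : a ≤ b ↔ b.dom ⊆ a.dom ∧ ∀ t ∈ b.dom, a.val t = b.val t := Iff.rfl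

/-- two conditions agree on the intersection of the domains -/
def Agree (a b : Add J W) : Prop := ∀ t ∈ a.dom, t ∈ b.dom → a.val t = b.val t

theorem Agree.symm {a b : Add J W} (h : Agree a b) : Agree b a :=
  fun t h1 h2 => (h t h2 h1).symm

theorem agree_of_le {a b c : Add J W} (h : c ≤ a) (h' : c ≤ b) : Agree a b :=
  fun t h1 h2 => (h.2 t h1).symm.trans (h'.2 t h2)

theorem Agree.of_le {a b c : Add J W} (h : Agree a b) (h' : b ≤ c) : Agree a c :=
  fun t h1 h2 => (h t h1 (h'.1 h2)).trans (h'.2 t h2)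

/-- the common extension of countably many conditions which agree pairwise -/
theorem exists_glue {ι : Type*} (f : ι → Add J W) (s : Set ι) (hs : s.Countable) 
    (h : ∀ i ∈ s, ∀ j ∈ s, Agree (f i) (f j)) :
    ∃ b : Add J W, (∀ i ∈ s, b ≤ f i) ∧ b.dom = ⋃ i ∈ s, (f i).dom := by
  classical
  let v : J × W → W := fun t =>
    if h : ∃ i, i ∈ s ∧ t ∈ (f i).dom then (f h.choose).val t else t.2
  have hv : ∀ i ∈ s, ∀ t ∈ (f i).dom, v t = (f i).val t := by
    intro i hi t ht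
    have h1 : ∃ i, i ∈ s ∧ t ∈ (f i).dom := ⟨i, hi, ht⟩
    simp only [v, dif_pos h1]
    exact h _ h1.choose_spec.1 _ hi t h1.choose_spec.2 ht
  refine ⟨⟨⋃ i ∈ s, (f i).dom, hs.biUnion fun i _ => (f i).ctb, v⟩, fun i hi => ⟨?_, hv i hi⟩, rfl⟩
  exact subset_biUnion_of_mem (u := fun i => (f i).dom) hi

theorem exists_glue2 {a b : Add J W} (h : Agree a b) :
    ∃ c, c ≤ a ∧ c ≤ b ∧ ∀ t ∈ c.dom, t ∈ a.dom ∨ t ∈ b.dom := by
  obtain ⟨c, hc, hdom⟩ := exists_glue (fun i : Bool => if i then a else b) Set.univ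
    (countable_univ) (by
      intro i _ j _
      cases i <;> cases j
      · exact fun _ _ _ => rfl
      · exact h.symm
      · exact h
      · exact fun _ _ _ => rfl)
  refine ⟨c, hc true trivial, hc false trivial, fun t ht => ?_⟩
  rw [hdom] at ht
  obtain ⟨i, -, hi⟩ := mem_iUnion₂.1 ht
  cases i
  · exact Or.inr hi
  · exact Or.inl hi

theorem exists_ext (a : Add J W) (t : J × W) (ht : t ∉ a.dom) (w : W) :
    ∃ a', a' ≤ a ∧ t ∈ a'.dom ∧ a'.val t = w := by
  classical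
  refine ⟨⟨insert t a.dom, a.ctb.insert t, Function.update a.val t w⟩,
    ⟨subset_insert _ _, fun t' ht' => ?_⟩, mem_insert _ _, Function.update_self _ _ _⟩
  show Function.update a.val t w t' = a.val t'
  rw [Function.update_of_ne fun h => ht (by rw [← h]; exact ht')]

/-- countable decreasing sequences have lower bounds -/
theorem exists_lower (f : ℕ → Add J W) (h : ∀ n, f (n + 1) ≤ f n) : ∃ b, ∀ n, b ≤ f n := by
  have h1 : Antitone f := antitone_nat_of_succ_le h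
  obtain ⟨c, hc, -⟩ := exists_glue f Set.univ countable_univ (by
    intro i _ j _
    rcases le_total i j with hij | hij
    · exact agree_of_le (h1 hij) le_rfl
    · exact agree_of_le le_rfl (h1 hij))
  exact ⟨c, fun n => hc n trivial⟩

/-- the weakest condition -/
def emp (v : J × W → W) : Add J W := ⟨∅, countable_empty, v⟩

theorem le_emp (a : Add J W) (v : J × W → W) : a ≤ emp v := ⟨empty_subset _, fun _ h => h.elim⟩

/-! ### The core lemma -/

section Core

variable {Ω : Type} [MeasurableSpace Ω] {μ : Measure Ω} [IsFiniteMeasure μ]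

theorem core {Ψ : Set (Add J W × Cond μ)} (hΨ : Down Ψ) (hd : ∀ p, ∃ q ≤ p, q ∈ Ψ)
    (a : Add J W) : ∃ a' ≤ a, ∀ b : Cond μ, ∃ b' ≤ b, (a', b') ∈ Ψ := by
  classical
  let 𝒮 : Set (Set (Add J W × Cond μ)) := {T | (∀ t ∈ T, t ∈ Ψ ∧ t.1 ≤ a) ∧
    ∀ t ∈ T, ∀ t' ∈ T, t ≠ t' → Agree t.1 t'.1 ∧ ¬ ∃ s, s ≤ t.2 ∧ s ≤ t'.2}
  obtain ⟨T, hT⟩ : ∃ T, Maximal (fun T => T ∈ 𝒮) T := by
    refine zorn_subset 𝒮 fun c hc hchain => ⟨⋃₀ c, ⟨?_, ?_⟩, fun s hs => subset_sUnion_of_mem hs⟩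
    · rintro t ⟨s, hs, hts⟩
      exact (hc hs).1 t hts
    · rintro t ⟨s, hs, hts⟩ t' ⟨s', hs', hts'⟩ hne
      rcases hchain.total hs hs' with h | h
      · exact (hc hs').2 t (h hts) t' hts' hne
      · exact (hc hs).2 t hts t' (h hts') hne
  have hTc : T.Countable := by
    by_contra hcon
    obtain ⟨x, x', hne, s, hs, hs'⟩ := ccc_cond (fun t : T => t.1.2) hcon
    exact (hT.prop.2 x.1 x.2 x'.1 x'.2 fun h => hne (Subtype.ext h)).2 ⟨s, hs, hs'⟩
  let T' : Set (Option (Add J W × Cond μ)) := insert none (some '' T)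
  let f : Option (Add J W × Cond μ) → Add J W := fun t => t.elim a fun t => t.1
  obtain ⟨a', ha', -⟩ := exists_glue f T' ((hTc.image _).insert none) (by
    rintro i (rfl | ⟨t, ht, rfl⟩) j (rfl | ⟨t', ht', rfl⟩)
    · exact fun _ _ _ => rfl
    · exact agree_of_le (hT.prop.1 t' ht').2 le_rfl
    · exact agree_of_le le_rfl (hT.prop.1 t ht).2
    · by_cases h : t = t'
      · rw [h]
        exact fun _ _ _ => rfl
      · exact (hT.prop.2 t ht t' ht' h).1)
  have haa : a' ≤ a := ha' none (mem_insert _ _)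
  have hat : ∀ t ∈ T, a' ≤ t.1 := fun t ht => ha' (some t) (mem_insert_of_mem _ ⟨t, ht, rfl⟩)
  refine ⟨a', haa, fun b => ?_⟩
  obtain ⟨⟨a2, b2⟩, hle, hmem⟩ := hd (a', b)
  by_cases hex : ∃ t ∈ T, ∃ s, s ≤ b2 ∧ s ≤ t.2
  · obtain ⟨t, ht, s, hs, hs'⟩ := hex
    exact ⟨s, hs.trans hle.2, hΨ t (hT.prop.1 t ht).1 _ ⟨hat t ht, hs'⟩⟩
  · exfalso
    push Not at hex
    have hin : insert (a2, b2) T ∈ 𝒮 := by
      constructor
      · rintro t (rfl | ht)
        · exact ⟨hmem, hle.1.trans haa⟩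
        · exact hT.prop.1 t ht
      · rintro t (rfl | ht) t' (rfl | ht') hne
        · exact absurd rfl hne
        · refine ⟨agree_of_le le_rfl (hle.1.trans (hat t' ht')), ?_⟩
          rintro ⟨s, hs, hs'⟩
          exact hex t' ht' s hs hs'
        · refine ⟨agree_of_le (hle.1.trans (hat t ht)) le_rfl, ?_⟩
          rintro ⟨s, hs, hs'⟩
          exact hex t ht s hs' hs
        · exact hT.prop.2 t ht t' ht' hne
    have h1 : (a2, b2) ∈ T := hT.le_of_ge hin (subset_insert _ _) (mem_insert _ _)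
    exact hex _ h1 b2 le_rfl le_rfl

/-- the section of a statement -/
theorem exists_section {φ : Set (Add J W × Cond μ)} (hφ : Reg φ) (a : Add J W) :
    ∃ E : Set Ω, MeasurableSet E ∧ ∀ b, (a, b) ∈ φ ↔ b ∈ AE μ E := by
  obtain ⟨E, hE, h⟩ := exists_rep1 {b : Cond μ | (a, b) ∈ φ}
  refine ⟨E, hE, fun b => ?_⟩
  rw [← h]
  constructor
  · intro hb q hq
    exact ⟨q, le_rfl, b, hb, hq⟩
  · intro hb
    refine hφ.2 _ fun ⟨a1, b1⟩ hle => ?_
    obtain ⟨r, hr, s, hs, hrs⟩ := hb b1 hle.2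
    exact ⟨(a1, r), ⟨le_rfl, hr⟩, hφ.1 _ hs _ ⟨hle.1, hrs⟩⟩

theorem decide1 {φ : Set (Add J W × Cond μ)} (hφ : Reg φ) (a : Add J W) :
    ∃ a' ≤ a, ∃ E : Set Ω, MeasurableSet E ∧ ∀ a'' ≤ a', ∀ b, ((a'', b) ∈ φ ↔ b ∈ AE μ E) := by
  obtain ⟨a', ha', h⟩ := core (Ψ := φ ∪ fnot φ) (by
    rintro p (hp | hp) q hq
    · exact Or.inl (hφ.1 p hp q hq)
    · exact Or.inr (down_fnot _ p hp q hq)) (by
    intro p
    by_cases hp : ∃ q ≤ p, q ∈ φ
    · obtain ⟨q, hq, hq'⟩ := hp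
      exact ⟨q, hq, Or.inl hq'⟩
    · push Not at hp
      exact ⟨p, le_rfl, Or.inr hp⟩) a
  obtain ⟨E, hE, h'⟩ := exists_section hφ a'
  refine ⟨a', ha', E, hE, fun a'' ha'' b => ⟨fun hb => ?_, fun hb => ?_⟩⟩
  · rw [mem_AE]
    by_contra hne
    have hne' : μ (b.1 ∩ Eᶜ) ≠ 0 := hne
    obtain ⟨b', hb', hb2⟩ := h (restr b Eᶜ hE.compl hne')
    rcases hb2 with hb2 | hb2
    · exact not_AE_compl ((h' _).1 hb2) (down_AE _ _ (restr_mem b Eᶜ hE.compl hne') _ hb')
    · exact hb2 (a'', b') ⟨ha'', le_rfl⟩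
        (hφ.1 _ hb _ ⟨le_rfl, hb'.trans (restr_le _ _ _ _)⟩)
  · exact hφ.1 _ ((h' b).2 hb) _ ⟨ha'', le_rfl⟩

theorem decide_seq {φ : ℕ → Set (Add J W × Cond μ)} (hφ : ∀ n, Reg (φ n)) (a : Add J W) :
    ∃ a' ≤ a, ∃ E : ℕ → Set Ω, ∀ n, MeasurableSet (E n) ∧
      ∀ a'' ≤ a', ∀ b, ((a'', b) ∈ φ n ↔ b ∈ AE μ (E n)) := by
  choose g hg E hE hE' using fun (n : ℕ) (a : Add J W) => decide1 (hφ n) a
  let f : ℕ → Add J W := fun n => Nat.rec (g 0 a) (fun n c => g (n + 1) c) n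
  have hf : ∀ n, f (n + 1) ≤ f n := fun n => hg (n + 1) (f n)
  obtain ⟨a', ha'⟩ := exists_lower f hf
  refine ⟨a', (ha' 0).trans (hg 0 a), fun n => if n = 0 then E 0 a else E n (f (n - 1)),
    fun n => ?_⟩
  cases n with
  | zero =>
    simp only [if_true]
    exact ⟨hE 0 a, fun a'' ha'' b => hE' 0 a a'' (ha''.trans (ha' 0)) b⟩
  | succ n =>
    simp only [Nat.succ_ne_zero, if_false, Nat.add_sub_cancel]
    exact ⟨hE (n + 1) (f n), fun a'' ha'' b => hE' (n + 1) (f n) a'' (ha''.trans (ha' (n + 1))) b⟩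

end Core

/-! ### Small predense sets -/

section Small

/-- the arities of the constructors -/
abbrev Ar (W : Type) (a : Option (ℕ → W × W) × ℕ) : Type := a.1.elim Empty fun _ => ℕ

/-- codes -/
abbrev Code (W : Type) : Type := WType (Ar W)

/-- indices of the predense sets -/
abbrev Ind (W : Type) : Type := Option ((ℕ → W × W) × (ℕ → Code W))

theorem mk_fun (hW : #W ≤ 𝔠) : #(ℕ → W × W) ≤ 𝔠 := by
  rw [mk_arrow, mk_nat, mk_prod]
  simp only [lift_id]
  calc (#W * #W) ^ ℵ₀ ≤ (𝔠 * 𝔠) ^ ℵ₀ := power_le_power_right (mul_le_mul' hW hW)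
    _ = 𝔠 := by rw [continuum_mul_self, continuum_power_aleph0]

theorem add_one_c : 𝔠 + 1 = (𝔠 : Cardinal.{0}) :=
  add_eq_left aleph0_le_continuum (one_le_aleph0.trans aleph0_le_continuum)

theorem mk_opt (hW : #W ≤ 𝔠) : #(Option (ℕ → W × W)) ≤ 𝔠 := by
  rw [mk_option]
  calc _ ≤ 𝔠 + 1 := add_le_add_left (mk_fun hW) 1
    _ = 𝔠 := add_one_c

theorem mk_code (hW : #W ≤ 𝔠) : #(Code W) ≤ 𝔠 := by
  refine WType.cardinalMk_le_of_le' ?_
  refine (sum_le_sum _ (fun _ => 𝔠) fun a => ?_).trans ?_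
  · rcases a with ⟨_ | c, k⟩
    · show 𝔠 ^ lift.{0} #Empty ≤ 𝔠
      rw [mk_empty, lift_zero, power_zero]
      exact one_le_aleph0.trans aleph0_le_continuum
    · show 𝔠 ^ lift.{0} #ℕ ≤ 𝔠
      rw [mk_nat, lift_aleph0, continuum_power_aleph0]
  · rw [sum_const', mk_prod, lift_id, lift_id, mk_nat]
    calc _ ≤ 𝔠 * ℵ₀ * 𝔠 := mul_le_mul' (mul_le_mul' (mk_opt hW) le_rfl) le_rfl
      _ = 𝔠 := by simp

theorem mk_ind (hW : #W ≤ 𝔠) : #(Ind W) ≤ 𝔠 := by
  have h2 : #(ℕ → Code W) ≤ 𝔠 := by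
    rw [mk_arrow, lift_id, lift_id, mk_nat]
    calc _ ≤ 𝔠 ^ ℵ₀ := power_le_power_right (mk_code hW)
      _ = 𝔠 := continuum_power_aleph0
  rw [mk_option, mk_prod, lift_id, lift_id]
  calc _ ≤ 𝔠 * 𝔠 + 1 := add_le_add_left (mul_le_mul' (mk_fun hW) h2) 1
    _ = 𝔠 := by rw [continuum_mul_self, add_one_c]

/-- the condition with a given enumeration -/
noncomputable def cnd (c : ℕ → W × W) (s : ℕ → J) : Add J W :=
  ⟨range fun n => (s n, (c n).1), countable_range _, fun t =>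
    open Classical in if h : ∃ n, (s n, (c n).1) = t then (c h.choose).2 else t.2⟩

theorem exists_small [Nonempty J] {D : Set (Add J W)} (hD : ∀ a, ∃ a' ≤ a, a' ∈ D) :
    ∃ d : Ind W → Add J W, (∀ i, d i ∈ D) ∧ ∀ a, ∃ i, Agree a (d i) := by
  classical
  choose Φ hΦ hΦD using hD
  have henum : ∀ a : Add J W, ∃ e : ℕ → J, ∀ t ∈ a.dom, t.1 ∈ range e := by
    intro a
    rcases a.dom.eq_empty_or_nonempty with h | h
    · refine ⟨fun _ => Classical.arbitrary J, fun t ht => ?_⟩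
      rw [h] at ht
      exact ht.elim
    · obtain ⟨e, he⟩ := a.ctb.exists_eq_range h
      refine ⟨fun n => (e n).1, fun t ht => ?_⟩
      rw [he] at ht
      obtain ⟨n, rfl⟩ := ht
      exact ⟨n, rfl⟩
  choose e he using henum
  let v0 : J × W → W := fun t => t.2
  let val : Code W → J := fun t => WType.elim J
    (fun x : Σ a : Option (ℕ → W × W) × ℕ, (Ar W a → J) =>
      match x with
      | ⟨(none, k), _⟩ => e (Φ (emp v0)) k
      | ⟨(some c, k), s⟩ => e (Φ (cnd c s)) k) t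
  have hval1 : ∀ k, e (Φ (emp v0)) k ∈ range val := by
    intro k
    exact ⟨WType.mk (none, k) Empty.elim, rfl⟩
  have hval2 : ∀ (c : ℕ → W × W) (f : ℕ → Code W) (k : ℕ),
      e (Φ (cnd c fun n => val (f n))) k ∈ range val := by
    intro c f k
    exact ⟨WType.mk (some c, k) f, rfl⟩
  refine ⟨fun i => i.elim (Φ (emp v0)) fun x => Φ (cnd x.1 fun n => val (x.2 n)), ?_, ?_⟩
  · rintro (_ | x)
    · exact hΦD _
    · exact hΦD _
  · intro a
    rcases {t ∈ a.dom | t.1 ∈ range val}.eq_empty_or_nonempty with h | h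
    · refine ⟨none, fun t h1 h2 => ?_⟩
      exfalso
      have h3 : t.1 ∈ range (e (Φ (emp v0))) := he _ t h2
      obtain ⟨k, hk⟩ := h3
      have h4 : t ∈ {t ∈ a.dom | t.1 ∈ range val} := ⟨h1, by rw [← hk]; exact hval1 k⟩
      rw [h] at h4
      exact h4
    · obtain ⟨u, hu⟩ := (a.ctb.mono (sep_subset _ _)).exists_eq_range h
      have hu' : ∀ n, u n ∈ {t ∈ a.dom | t.1 ∈ range val} := fun n => by rw [hu]; exact ⟨n, rfl⟩
      choose f hf using fun n => (hu' n).2
      let c : ℕ → W × W := fun n => ((u n).2, a.val (u n))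
      refine ⟨some (c, f), fun t h1 h2 => ?_⟩
      have h3 : t.1 ∈ range val := by
        obtain ⟨k, hk⟩ := he _ t h2
        rw [← hk]
        exact hval2 c f k
      have h4 : t ∈ {t ∈ a.dom | t.1 ∈ range val} := ⟨h1, h3⟩
      rw [hu] at h4
      obtain ⟨n, hn⟩ := h4
      have h5 : (fun n => val (f n)) = fun n => (u n).1 := funext hf
      have h6 : t ∈ (cnd c fun n => val (f n)).dom := by
        refine ⟨n, ?_⟩
        show (val (f n), (u n).2) = t
        rw [hf n, hn]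
      have h7 := (hΦ (cnd c fun n => val (f n))).2 t h6
      show a.val t = (Φ (cnd c fun n => val (f n))).val t
      rw [h7]
      show a.val t = if h : ∃ n, (val (f n), (c n).1) = t then (c h.choose).2 else t.2
      have h8 : ∃ n, (val (f n), (c n).1) = t := ⟨n, by rw [hf n]; exact hn⟩
      rw [dif_pos h8]
      have h9 := h8.choose_spec
      rw [hf] at h9
      show a.val t = a.val (u h8.choose)
      congr 1
      exact h9.symm

end Small

end Pool.Agent.R592.Hd
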