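import Pool.Agent.R592.Hd.Force
import Pool.Agent.R592.Ent.Ground

/-!
# The meaning of the sentences over the trivial forcing, and the choice of the parameters
-/

set_option autoImplicit false
set_option linter.unusedSectionVars false

namespace Pool.Agent.R592.Hd

open Cardinal MeasureTheory Set Filter Topology
open Pool.Agent.TH773.PSet Pool.Agent.R593.Rnd Pool.Agent.R592.Ent
open scoped ENNReal

/-! ### The cardinal characteristics -/

/-- `x ≠* y` -/
def Ne' (x y : ℕ → ℕ) : Prop := ∀ᶠ n in atTop, x n ≠ y n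

/-- `𝔟(≠*)`: the least size of a set `A` of functions from `ω` to `ω` such that no `y` satisfies
`x ≠* y` for all `x` in `A` -/
noncomputable def bNe : Cardinal.{0} :=
  sInf {c | ∃ A : Set (ℕ → ℕ), (¬ ∃ y : ℕ → ℕ, ∀ x ∈ A, Ne' x y) ∧ #A = c}

/-- `𝔡(≠*_{∅})`: the least size of a set `D` of functions from `ω ^ ω` to `ω ^ ω` such that for
every `f : ω ^ ω → ω ^ ω` there is `g` in `D` with `f x ≠* g x` for every `x` -/
noncomputable def dEmpty : Cardinal.{0} :=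
  sInf {c | ∃ D : Set ((ℕ → ℕ) → (ℕ → ℕ)),
    (∀ f : (ℕ → ℕ) → (ℕ → ℕ), ∃ g ∈ D, ∀ x, Ne' (f x) (g x)) ∧ #D = c}

/-- `𝔡^lam_κ`: the least size of a set `D` of functions from `lam` to `κ` such that for every
`f : lam → κ` there is `g` in `D` with `|{α < lam : f α > g α}| < κ` -/
noncomputable def dHigh (lam κ : Cardinal.{0}) : Cardinal.{0} :=
  sInf {c | ∃ D : Set (lam.ord.ToType → κ.ord.ToType),
    (∀ f : lam.ord.ToType → κ.ord.ToType, ∃ g ∈ D, #{α // g α < f α} < κ) ∧ #D = c}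

lemma fam {T : Type} (Q : Set T → Prop) (hmono : ∀ s t, s ⊆ t → Q s → Q t) (hne : ¬ Q ∅)
    (huniv : Q Set.univ) (Y : Type) :
    (∃ D : Y → T, Q (range D)) ↔ sInf {c | ∃ D : Set T, Q D ∧ #D = c} ≤ #Y := by
  constructor
  · rintro ⟨D, hD⟩
    have h1 : sInf {c : Cardinal.{0} | ∃ D : Set T, Q D ∧ #D = c} ≤ #(range D) :=
      csInf_le' ⟨_, hD, rfl⟩
    exact h1.trans mk_range_le
  · intro h
    have hne' : {c : Cardinal.{0} | ∃ D : Set T, Q D ∧ #D = c}.Nonempty := ⟨_, Set.univ, huniv, rfl⟩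
    obtain ⟨D, hD, hc⟩ := csInf_mem hne'
    rw [← hc] at h
    obtain ⟨e⟩ := h
    have hDne : Nonempty D := by
      rcases D.eq_empty_or_nonempty with h | h
      · rw [h] at hD
        exact absurd hD hne
      · exact h.to_subtype
    refine ⟨fun y => (Function.invFun e y).1, hmono D _ (fun t ht => ⟨e ⟨t, ht⟩, ?_⟩) hD⟩
    exact congrArg Subtype.val (Function.leftInverse_invFun e.injective ⟨t, ht⟩)

lemma bNe_iff (Y : Type) :
    (∃ D : Y → ℕ → ℕ, ¬ ∃ y : ℕ → ℕ, ∀ i, Ne' (D i) y) ↔ bNe ≤ #Y := by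
  have h := fam (T := ℕ → ℕ) (fun A => ¬ ∃ y : ℕ → ℕ, ∀ x ∈ A, Ne' x y)
    (fun s t hst hs ⟨y, hy⟩ => hs ⟨y, fun x hx => hy x (hst hx)⟩)
    (fun h => h ⟨fun _ => 0, fun x hx => hx.elim⟩)
    (fun ⟨y, hy⟩ => by
      obtain ⟨n, hn⟩ := (hy y trivial).exists
      exact hn rfl) Y
  rw [bNe, ← h]
  refine exists_congr fun D => not_congr (exists_congr fun y => ?_)
  exact (forall_mem_range (f := D) (p := fun x => Ne' x y)).symm

lemma dEmpty_iff (X Y : Type) (e : X ≃ (ℕ → ℕ)) :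
    (∃ D : Y → X → ℕ → ℕ, ∀ f : X → ℕ → ℕ, ∃ y, ∀ x, Ne' (f x) (D y x)) ↔ dEmpty ≤ #Y := by
  have h := fam (T := (ℕ → ℕ) → (ℕ → ℕ)) (fun D => ∀ f : (ℕ → ℕ) → (ℕ → ℕ), ∃ g ∈ D,
      ∀ x, Ne' (f x) (g x))
    (fun s t hst hs f => by
      obtain ⟨g, hg, h⟩ := hs f
      exact ⟨g, hst hg, h⟩)
    (fun h => by
      obtain ⟨g, hg, -⟩ := h fun x => x
      exact hg.elim)
    (fun f => ⟨fun x n => f x n + 1, trivial, fun x => Eventually.of_forall fun n => by
      show f x n ≠ f x n + 1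
      omega⟩) Y
  rw [dEmpty, ← h]
  constructor
  · rintro ⟨D, hD⟩
    refine ⟨fun y x => D y (e.symm x), fun f => ?_⟩
    obtain ⟨y, hy⟩ := hD fun x => f (e x)
    refine ⟨_, ⟨y, rfl⟩, fun x => ?_⟩
    have := hy (e.symm x)
    rw [Equiv.apply_symm_apply] at this
    exact this
  · rintro ⟨D, hD⟩
    refine ⟨fun y x => D y (e x), fun f => ?_⟩
    obtain ⟨_, ⟨y, rfl⟩, hy⟩ := hD fun x => f (e.symm x)
    refine ⟨y, fun x => ?_⟩
    have := hy (e x)
    rw [Equiv.symm_apply_apply] at this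
    exact this

lemma dHigh_iff {κ : Cardinal.{0}} (hκ : κ ≠ 0) (Y : Type) :
    (∃ D : Y → κ.ord.ToType → κ.ord.ToType, ∀ f : κ.ord.ToType → κ.ord.ToType, ∃ y,
      #{α // D y α < f α} < κ) ↔ dHigh κ κ ≤ #Y := by
  have h := fam (T := κ.ord.ToType → κ.ord.ToType)
    (fun D => ∀ f : κ.ord.ToType → κ.ord.ToType, ∃ g ∈ D, #{α // g α < f α} < κ)
    (fun s t hst hs f => by
      obtain ⟨g, hg, h⟩ := hs f
      exact ⟨g, hst hg, h⟩)
    (fun h => by
      obtain ⟨g, hg, -⟩ := h id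
      exact hg.elim)
    (fun f => ⟨f, trivial, by
      have : IsEmpty {α // f α < f α} := ⟨fun α => lt_irrefl _ α.2⟩
      rw [mk_eq_zero]
      exact pos_iff_ne_zero.2 hκ⟩) Y
  rw [dHigh, ← h]
  refine exists_congr fun D => forall_congr' fun f => ?_
  exact (exists_range_iff (f := D) (p := fun g => #{α // g α < f α} < κ)).symm

lemma bNe_le : bNe ≤ 𝔠 := by
  have h : bNe ≤ #(ℕ → ℕ) := (bNe_iff (ℕ → ℕ)).1 ⟨id, fun ⟨y, hy⟩ => by
    obtain ⟨n, hn⟩ := (hy y).exists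
    exact hn rfl⟩
  simpa using h

/-! ### The meaning of the sentences -/

lemma unit_evDiff {x y : ℕ → ℕ → Set Unit} {x' y' : ℕ → ℕ} {p : Unit}
    (hx : ∀ n a, () ∈ x n a ↔ x' n = a) (hy : ∀ n a, () ∈ y n a ↔ y' n = a) :
    p ∈ EvDiff x y ↔ Ne' x' y' := by
  simp only [EvDiff, mem_fall, unit_fex, mem_fand, unit_fnot, unit_meets, hx, hy, Ne',
    eventually_atTop]
  refine exists_congr fun N => forall_congr' fun n => forall_congr' fun _ => ?_
  constructor
  · intro h h'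
    exact h (x' n) ⟨rfl, h'.symm⟩
  · rintro h k ⟨h1, h2⟩
    exact h (h1.trans h2.symm)

theorem unit_bLe {Y : Type} {p : Unit} : p ∈ BLe Unit Y ↔ bNe ≤ #Y := by
  rw [← bNe_iff]
  simp only [BLe, unit_fex, mem_fand, mem_fall, unit_isFun, unit_fnot]
  constructor
  · rintro ⟨D, hD, h⟩
    choose D' hD' using hD
    refine ⟨D', fun ⟨y, hy⟩ => h ⟨fun n k => {_p | y n = k}, ⟨y, fun _ _ => Iff.rfl⟩, fun i => ?_⟩⟩
    exact (unit_evDiff (hD' i) fun _ _ => Iff.rfl).2 (hy i)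
  · rintro ⟨D, h⟩
    refine ⟨fun i n k => {_p | D i n = k}, fun i => ⟨D i, fun _ _ => Iff.rfl⟩, ?_⟩
    rintro ⟨z, ⟨y, hy⟩, hz⟩
    exact h ⟨y, fun i => (unit_evDiff (fun _ _ => Iff.rfl) hy).1 (hz i)⟩

theorem unit_dLe {X Y : Type} {p : Unit} : p ∈ DLe Unit X Y ↔
    ∃ D : Y → X → ℕ → ℕ, ∀ f : X → ℕ → ℕ, ∃ y, ∀ x, Ne' (f x) (D y x) := by
  simp only [DLe, unit_fex, mem_fand, mem_fall, unit_isFun, unit_fimp]
  constructor
  · rintro ⟨D, hD, h⟩
    choose D' hD' using hD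
    refine ⟨D', fun f => ?_⟩
    obtain ⟨y, hy⟩ := h (fun x n k => {_p | f x n = k}) fun x => ⟨f x, fun _ _ => Iff.rfl⟩
    exact ⟨y, fun x => (unit_evDiff (fun _ _ => Iff.rfl) (hD' y x)).1 (hy x)⟩
  · rintro ⟨D, h⟩
    refine ⟨fun y x n k => {_p | D y x n = k}, fun y x => ⟨D y x, fun _ _ => Iff.rfl⟩, ?_⟩
    intro f hf
    choose f' hf' using hf
    obtain ⟨y, hy⟩ := h f'
    exact ⟨y, fun x => (unit_evDiff (hf' x) fun _ _ => Iff.rfl).2 (hy x)⟩

theorem unit_almLe {K : Type} [LT K] {f g : K → K → Set Unit} {f' g' : K → K} {p : Unit}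
    (hf : ∀ n a, () ∈ f n a ↔ f' n = a) (hg : ∀ n a, () ∈ g n a ↔ g' n = a) :
    p ∈ AlmLe f g ↔ #{α // g' α < f' α} < #K := by
  simp only [AlmLe, mem_fall, unit_fex, mem_fand, unit_fimp, unit_meets, unit_isFun, hf, hg]
  constructor
  · rintro ⟨μ, hμ, S, ⟨s, hs⟩, h⟩
    refine lt_of_le_of_lt ?_ hμ
    have h1 : ∀ α : {α // g' α < f' α}, ∃ i : μ.out, s i = α.1 := by
      intro α
      obtain ⟨i, hi⟩ := h α.1 _ _ α.2 ⟨rfl, rfl⟩
      exact ⟨i, (hs i _).1 hi⟩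
    choose i hi using h1
    calc _ ≤ #μ.out := mk_le_of_injective (f := i) fun α β h => by
          apply Subtype.ext
          rw [← hi α, ← hi β, h]
      _ = μ := mk_out μ
  · intro h
    obtain ⟨e⟩ : Nonempty ((#{α // g' α < f' α}).out ≃ {α // g' α < f' α}) := by
      rw [← Cardinal.eq, mk_out]
    refine ⟨_, h, fun i α => {_p | (e i).1 = α}, ⟨fun i => (e i).1, fun _ _ => Iff.rfl⟩, ?_⟩
    rintro α _ _ hlt ⟨rfl, rfl⟩
    refine ⟨e.symm ⟨α, hlt⟩, ?_⟩
    show (e (e.symm ⟨α, hlt⟩)).1 = α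
    rw [Equiv.apply_symm_apply]

theorem unit_domLe {K Y : Type} [LT K] {p : Unit} : p ∈ DomLe Unit K Y ↔
    ∃ D : Y → K → K, ∀ f : K → K, ∃ y, #{α // D y α < f α} < #K := by
  simp only [DomLe, unit_fex, mem_fand, mem_fall, unit_isFun, unit_fimp]
  constructor
  · rintro ⟨D, hD, h⟩
    choose D' hD' using hD
    refine ⟨D', fun f => ?_⟩
    obtain ⟨y, hy⟩ := h (fun n k => {_p | f n = k}) ⟨f, fun _ _ => Iff.rfl⟩
    exact ⟨y, (unit_almLe (f' := f) (g' := D' y) (fun _ _ => Iff.rfl) (hD' y)).1 hy⟩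
  · rintro ⟨D, h⟩
    refine ⟨fun y n k => {_p | D y n = k}, fun y => ⟨D y, fun _ _ => Iff.rfl⟩, ?_⟩
    rintro f ⟨f', hf'⟩
    obtain ⟨y, hy⟩ := h f'
    exact ⟨y, (unit_almLe hf' fun _ _ => Iff.rfl).2 hy⟩

theorem unit_staysCardinal {K : Type} {p : Unit} : p ∈ StaysCardinal Unit K := by
  intro μ hμ
  rw [unit_fnot, unit_fex]
  rintro ⟨R, h1, h2⟩
  obtain ⟨f, hf⟩ := unit_isFun.1 h1
  have h3 : Function.Surjective f := by
    intro y
    obtain ⟨x, hx⟩ := unit_fex.1 (h2 y)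
    exact ⟨x, (hf x y).1 (unit_meets.1 hx)⟩
  have h4 := mk_le_of_surjective h3
  rw [mk_out] at h4
  exact absurd h4 (not_le.2 hμ)

/-- **The meaning of the sentence `Model`.** -/
theorem unit_model {κ ν : Cardinal.{0}} {p : Unit} :
    p ∈ Model Unit κ ν ↔ (κ = 𝔠 ∧ bNe = 𝔠 ∧ dEmpty ≤ ν ∧ ν < dHigh 𝔠 bNe) := by
  have h1 : (∀ μ : Cardinal.{0}, μ < κ → ¬ bNe ≤ μ) ↔ κ ≤ bNe := by
    constructor
    · intro h
      by_contra hlt
      exact h bNe (not_le.1 hlt) le_rfl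
    · intro h μ hμ h'
      exact absurd (h.trans h') (not_le.2 hμ)
  simp only [Model, mem_fand, unit_staysCardinal, true_and, unit_continuumLe, mem_fall,
    unit_fnot, unit_bLe, unit_dLe, unit_domLe, mk_out, h1, mk_ord_toType]
  constructor
  · rintro ⟨h2, h3, h4, h5⟩
    have h6 : κ = 𝔠 := le_antisymm (h3.trans bNe_le) h2
    have h7 : bNe = 𝔠 := le_antisymm bNe_le (h2.trans h3)
    refine ⟨h6, h7, ?_, ?_⟩
    · obtain ⟨e⟩ : Nonempty (κ.ord.ToType ≃ (ℕ → ℕ)) := by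
        rw [← Cardinal.eq, mk_ord_toType, h6]
        simp
      have := (dEmpty_iff _ ν.out e).1 h4
      rwa [mk_out] at this
    · rw [h7, ← h6]
      by_contra hle
      rw [not_lt] at hle
      apply h5
      refine (dHigh_iff (κ := κ) ?_ ν.out).2 (by rwa [mk_out])
      rw [h6]
      exact continuum_ne_zero
  · rintro ⟨h2, h3, h4, h5⟩
    refine ⟨h2.ge, (h2.trans h3.symm).le, ?_, ?_⟩
    · obtain ⟨e⟩ : Nonempty (κ.ord.ToType ≃ (ℕ → ℕ)) := by
        rw [← Cardinal.eq, mk_ord_toType, h2]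
        simp
      refine (dEmpty_iff _ ν.out e).2 ?_
      rwa [mk_out]
    · intro h6
      have h7 := (dHigh_iff (κ := κ) (by rw [h2]; exact continuum_ne_zero) ν.out).1 h6
      rw [mk_out, h2] at h7
      rw [h3] at h5
      exact absurd h7 (not_le.2 h5)

/-! ### The choice of the parameters -/

open Ordinal in
theorem exists_model : ∃ (κ ν : Cardinal.{0}) (P : Type) (_ : Preorder P), Nonempty P ∧
    ∀ p : P, p ∈ Model.{0, 0} P κ ν := by
  let κ : Cardinal.{0} := ℶ_ ω₁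
  let K : Type := κ.ord.ToType
  have hK : #K = κ := mk_ord_toType κ
  let W : Type := (ω₁ : Ordinal.{0}).ToType
  have hW : #W = ℵ₁ := by
    show #(ω₁ : Ordinal.{0}).ToType = ℵ₁
    simp
  have hlim : Order.IsSuccLimit (ω₁ : Ordinal.{0}) := Cardinal.isSuccLimit_omega 1
  have hKc : 𝔠 < κ := by
    rw [← beth_one]
    exact beth_strictMono (by simpa using one_lt_omega0.trans omega0_lt_omega_one)
  have hWK : ℵ₁ ≤ κ := aleph_one_le_continuum.trans hKc.le
  have hK0 : ℵ₀ ≤ κ := aleph0_lt_aleph_one.le.trans hWK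
  -- the cofinal map
  have hord : ∀ w : W, (ℶ_ (ToType.mk.symm w : Ordinal)).ord < κ.ord := by
    intro w
    rw [ord_lt_ord]
    exact beth_strictMono (ToType.mk.symm w).2
  let c : W → K := fun w => ToType.mk ⟨_, hord w⟩
  have hc : ∀ β, ∃ w, β < c w := by
    intro β
    have h1 : (ToType.mk.symm β : Ordinal) < κ.ord := (ToType.mk.symm β).2
    rw [lt_ord] at h1
    have h2 : κ = ⨆ a : Iio (ω₁ : Ordinal.{0}), ℶ_ a := beth_limit hlim
    have h1' := h1.trans_eq h2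
    obtain ⟨⟨a, ha⟩, h3⟩ := exists_lt_of_lt_ciSup' h1'
    refine ⟨ToType.mk ⟨a, ha⟩, ?_⟩
    rw [← ToType.mk.symm.lt_iff_lt]
    show (ToType.mk.symm β) < ToType.mk.symm (ToType.mk ⟨_, hord _⟩)
    rw [OrderIso.symm_apply_apply]
    show (ToType.mk.symm β : Ordinal) < (ℶ_ (ToType.mk.symm (ToType.mk ⟨a, ha⟩) : Ordinal)).ord
    rw [OrderIso.symm_apply_apply, lt_ord]
    exact h3
  -- the blocks
  obtain ⟨e⟩ : Nonempty (K ≃ K × W) := by
    rw [← Cardinal.eq, mk_prod, Cardinal.lift_id, Cardinal.lift_id, hW, hK]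
    exact (mul_eq_left hK0 hWK (aleph_pos 1).ne').symm
  let blk : K → W := fun α => (e α).2
  have hblk : ∀ w, #{α // blk α = w} = #K := by
    intro w
    refine Cardinal.eq.2 ⟨⟨fun α => (e α.1).1, fun k => ⟨e.symm (k, w), ?_⟩, ?_, ?_⟩⟩
    · show (e (e.symm (k, w))).2 = w
      rw [Equiv.apply_symm_apply]
    · rintro ⟨α, hα⟩
      apply Subtype.ext
      show e.symm ((e α).1, w) = α
      rw [← hα]
      show e.symm ((e α).1, (e α).2) = α
      simp
    · intro k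
      show (e (e.symm (k, w))).1 = k
      rw [Equiv.apply_symm_apply]
  -- countable sequences
  have hpow : #K ^ ℵ₀ = #K := by
    refine le_antisymm ?_ (self_le_power _ (one_le_aleph0))
    have h1 : #(ℕ × K) = #K := by
      rw [mk_prod, Cardinal.lift_id, Cardinal.lift_id, mk_nat, hK]
      exact mul_eq_right hK0 hK0 aleph0_ne_zero
    have hcof : ℵ₀ < (#(ℕ × K)).ord.cof := by
      rw [h1, hK]
      have h2 : Order.IsNormal fun o : Ordinal.{0} => (ℶ_ o).ord :=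
        isNormal_ord.comp isNormal_beth
      have h3 := cof_map_of_isNormal h2 hlim
      show ℵ₀ < (ℶ_ ω₁).ord.cof
      rw [h3, cof_omega_one]
      exact aleph0_lt_aleph_one
    have hsl : IsStrongPrelimit #(ℕ × K) := by
      rw [h1, hK]
      exact (isStrongLimit_beth.2 hlim.isSuccPrelimit).isStrongPrelimit
    calc #K ^ ℵ₀ = #(ℕ → K) := by rw [mk_arrow, Cardinal.lift_id, Cardinal.lift_id, mk_nat]
      _ ≤ #{s : Set (ℕ × K) // #s < (#(ℕ × K)).ord.cof} := by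
        refine mk_le_of_injective (f := fun f => ⟨range fun n => (n, f n),
          mk_range_le.trans_lt (by rwa [mk_nat])⟩) fun f g h => ?_
        have h' : (range fun n => (n, f n)) = range fun n => (n, g n) := congrArg Subtype.val h
        funext n
        have h2 : (n, f n) ∈ range fun n => (n, g n) := by
          rw [← h']
          exact ⟨n, rfl⟩
        obtain ⟨m, hm⟩ := h2
        have h3 : m = n := congrArg Prod.fst hm
        have h4 : g m = f n := congrArg Prod.snd hm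
        rw [← h4, h3]
      _ = #(ℕ × K) := mk_subset_mk_lt_cof hsl
      _ = #K := h1
  let ν : Cardinal.{0} := #(K → K)
  let J : Type := (Order.succ ν).out
  have hJ : #J = Order.succ ν := mk_out _
  have hνJ : ν < #J := by
    rw [hJ]
    exact Order.lt_succ ν
  have hKν : #K ≤ ν := by
    show #K ≤ #(K → K)
    rw [mk_arrow, Cardinal.lift_id]
    exact self_le_power _ (one_le_aleph0.trans (hK0.trans_eq hK.symm))
  have hJne : Nonempty J := by
    rw [← mk_ne_zero_iff]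
    exact (lt_of_le_of_lt zero_le hνJ).ne'
  have hWc : #W ≤ 𝔠 := by
    rw [hW]
    exact aleph_one_le_continuum
  have hWu : ℵ₀ < #W := by
    rw [hW]
    exact aleph0_lt_aleph_one
  have hKc' : 𝔠 < #K := by rwa [hK]
  refine ⟨κ, ν, Add J W × Random K, inferInstance, ?_, fun p => ?_⟩
  · have w0 : W := Classical.choice (by
      rw [← mk_ne_zero_iff, hW]
      exact (aleph_pos 1).ne')
    exact ⟨emp fun _ => w0, ⟨Set.univ, MeasurableSet.univ, by simp⟩⟩
  · refine ⟨staysCardinal hWc hKc' p, continuumLe (hK0.trans_eq hK.symm) hpow rfl p,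
      fun μ hμ => ?_, dLe hWc hKc' (by rw [mk_out]) p, ?_⟩
    · exact not_bLe hWc hKc' (by rw [mk_out, hK]; exact hμ) p
    · exact not_domLe hWc hWu hKc' blk hblk c hc (hKν.trans_lt hνJ) (by rwa [mk_out]) p

end Pool.Agent.R592.Hd
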